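import Pool.Agent.Y425.BF6.Cor

set_option autoImplicit false

/-!
Bridgeless cubic graphs of cutwidth at most six are unions of three 2-factors.

A finite graph, loops and parallel edges allowed, has the vertex set `V` and the edge set `E`; the
ends of the edge `e` are `s e` and `t e`. The cutwidth is at most six if the vertices can be placed
on a line such that at most six edges pass over each gap.
-/

open Finset

namespace Pool.Agent.Results.MP_c95763_co.CutwidthSix

/-- every vertex has degree three, where a loop counts twice -/
def IsCubic {V E : Type} [DecidableEq V] [Fintype E] (s t : E → V) : Prop :=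
  ∀ v, ∑ e, ((if s e = v then 1 else 0) + (if t e = v then 1 else 0)) = 3

/-- the set of edges `C` is a 2-factor: every vertex has degree two in it -/
def IsTwoFactor {V E : Type} [DecidableEq V] (s t : E → V) (C : Finset E) : Prop :=
  ∀ v, ∑ e ∈ C, ((if s e = v then 1 else 0) + (if t e = v then 1 else 0)) = 2

/-- Let `G` be a finite cubic graph such that no set of vertices is left by exactly one edge (no
bridges) and that the vertices can be numbered injectively by natural numbers such that for each `n`
at most six edges join a vertex with number smaller than `n` to a vertex with number at least `n`.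
Then `G` is the union of three 2-factors; more precisely, there are six 2-factors such that each
edge is in exactly four of them, so any three of them cover all edges. -/
theorem result (V E : Type) [Fintype V] [DecidableEq V] [Fintype E] [DecidableEq E] (s t : E → V)
    (hc : IsCubic s t)
    (hbridge : ∀ Z : Finset V, (univ.filter fun e => ¬ (s e ∈ Z ↔ t e ∈ Z)).card ≠ 1)
    (hwidth : ∃ f : V → ℕ, Function.Injective f ∧
      ∀ n, (univ.filter fun e => ¬ (f (s e) < n ↔ f (t e) < n)).card ≤ 6) :
    ∃ C : Fin 6 → Finset E, (∀ i, IsTwoFactor s t (C i)) ∧
      (∀ e, (univ.filter (fun i => e ∈ C i)).card = 4) ∧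
      ∀ i j k, i ≠ j → i ≠ k → j ≠ k → C i ∪ C j ∪ C k = univ := by
  obtain ⟨C, hC, h4⟩ := Pool.Agent.Y425.BF6.Cor.six_cw s t hbridge hwidth
  refine ⟨C, fun i v => Pool.Agent.Y425.BF6.Cor.factor hC h4 v (hc v) i, h4, ?_⟩
  intro i j k hij hik hjk
  ext e
  simp only [mem_union, mem_univ, iff_true]
  rcases Pool.Agent.Y425.BF6.Cor.three_cover h4 hij hik hjk e with h | h | h
  · exact Or.inl (Or.inl h)
  · exact Or.inl (Or.inr h)
  · exact Or.inr h

end Pool.Agent.Results.MP_c95763_co.CutwidthSix
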